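import Pool.Agent.H85.SD.Defs

/-!
Random `k`-CNFs: definitions (helper69; project MP_28250c_SD; no row).
-/

set_option autoImplicit false
open scoped Classical

namespace SizeDegree

/-- A clause with `k` literals on distinct variables: the variables and the values which make the literals true. -/
abbrev KClause (n k : ℕ) := (Fin k ↪ Fin n) × (Fin k → Bool)

/-- The clause as a set of literals. -/
def KClause.toClause {n k : ℕ} (C : KClause n k) : Clause n := Finset.univ.image fun i => (C.1 i, C.2 i)

end SizeDegree
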