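import Pool.Agent.H69.SD.RDefs
import Pool.Agent.H33.RG.Op
import Pool.Agent.H33.RP.Ec

/-!
Random `k`-CNFs have no polynomial calculus refutation of degree `n / C`, over every prime field (helper69; project
MP_28250c_SD).  Uses the Alekhnovich-Razborov operator (helper91, helper33) and the expansion of random CNFs (helper33,
helper79).
-/

set_option autoImplicit false
open scoped Classical

namespace H69SD

open SizeDegree H95RE

theorem Derives_mono {p n m : ℕ} {Φ : Fin m → Clause n} {d e : ℕ} (hde : d ≤ e) {g : Pt n → ZMod p}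
    (h : Derives Φ d g) : Derives Φ e g := by
  induction h with
  | zero => exact Derives.zero
  | clause j => exact Derives.clause j
  | add _ _ ih1 ih2 => exact Derives.add ih1 ih2
  | smul a _ ih => exact Derives.smul a ih
  | mul i _ hdeg hc ih => exact Derives.mul i ih hdeg (lt_of_lt_of_le hc hde)

theorem prod_eq_mono {F : Type} [Field F] {n : ℕ} (T : Finset (Fin n)) (x : Pt n) :
    ∏ i ∈ T, (if x i = true then (1 : F) else 0) = mono F T x := by
  rw [Finset.prod_ite_zero, Finset.prod_const_one]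
  unfold mono
  by_cases h : ∀ i ∈ T, x i = true
  · rw [if_pos h, if_pos h]
  · rw [if_neg h, if_neg h]

theorem DegLE_RM {p n : ℕ} [Fact p.Prime] {d : ℕ} {g : Pt n → ZMod p} (h : DegLE d g) : g ∈ RM (ZMod p) n d := by
  obtain ⟨a, ha⟩ := h
  have h1 : g = ∑ T ∈ Finset.univ.filter (fun T : Finset (Fin n) => T.card ≤ d), a T • mono (ZMod p) T := by
    funext x
    rw [ha x, Finset.sum_apply]
    refine Finset.sum_congr rfl fun T _ => ?_
    rw [Pi.smul_apply, smul_eq_mul, ← prod_eq_mono]
  rw [h1]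
  refine Submodule.sum_mem _ fun T hT => Submodule.smul_mem _ _ (Submodule.subset_span ⟨T, ?_, rfl⟩)
  exact (Finset.mem_filter.mp hT).2

/-- the falsifying values of a clause -/
noncomputable def fv {n k : ℕ} (C : KClause n k) : Pt n := fun t => !(decide (∃ i, C.1 i = t ∧ C.2 i = true))

theorem fv_apply {n k : ℕ} (C : KClause n k) (i : Fin k) : fv C (C.1 i) = !(C.2 i) := by
  unfold fv
  cases h : C.2 i with
  | true =>
    rw [decide_eq_true ⟨i, rfl, h⟩]
  | false =>
    rw [decide_eq_false]
    rintro ⟨i', h1, h2⟩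
    have h3 := C.1.injective h1
    rw [h3, h] at h2
    exact absurd h2 (by decide)

theorem holds_iff {n k : ℕ} (C : KClause n k) (x : Pt n) :
    C.toClause.Holds x ↔ ¬ ∀ t ∈ (Finset.univ.image C.1 : Finset (Fin n)), x t = fv C t := by
  unfold KClause.toClause Clause.Holds
  constructor
  · rintro ⟨l, hl, hx⟩ h
    obtain ⟨i, -, rfl⟩ := Finset.mem_image.mp hl
    have h1 := h (C.1 i) (Finset.mem_image_of_mem _ (Finset.mem_univ i))
    rw [fv_apply] at h1
    simp only at hx
    rw [hx] at h1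
    cases h2 : C.2 i <;> rw [h2] at h1 <;> exact absurd h1 (by decide)
  · intro h
    by_contra hc
    apply h
    intro t ht
    obtain ⟨i, -, rfl⟩ := Finset.mem_image.mp ht
    rw [fv_apply]
    have h1 : x (C.1 i) ≠ C.2 i := fun h1 => hc ⟨(C.1 i, C.2 i), Finset.mem_image_of_mem _ (Finset.mem_univ i), h1⟩
    cases h2 : C.2 i <;> cases h3 : x (C.1 i)
    · rw [h2, h3] at h1; exact absurd rfl h1
    · rfl
    · rfl
    · rw [h2, h3] at h1; exact absurd rfl h1

theorem ind_clause {F : Type} [Field F] {n k : ℕ} (C : KClause n k) :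
    (fun x : Pt n => if C.toClause.Holds x then (0 : F) else 1) =
      H33RG.ind F (Finset.univ.image C.1) (fv C) := by
  funext x
  unfold H33RG.ind
  by_cases h : ∀ t ∈ (Finset.univ.image C.1 : Finset (Fin n)), x t = fv C t
  · rw [if_pos h, if_neg]
    rw [holds_iff]
    exact fun h' => h' h
  · rw [if_neg h, if_pos]
    rw [holds_iff]
    exact h

theorem derives_PI {p n m k : ℕ} [Fact p.Prime] (Φ : Fin m → KClause n k) {d : ℕ}
    {g : Pt n → ZMod p} (h : Derives (fun j => (Φ j).toClause) d g) :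
    g ∈ PI (ZMod p) n (Set.range fun j => H33RG.ind (ZMod p) (Finset.univ.image (Φ j).1) (fv (Φ j))) d := by
  induction h with
  | zero => exact Submodule.zero_mem _
  | clause j =>
    rw [ind_clause (F := ZMod p) (Φ j)]
    unfold PI
    rw [Submodule.mem_sInf]
    intro J hJ
    exact hJ.1 ⟨j, rfl⟩
  | add _ _ ih1 ih2 => exact Submodule.add_mem _ ih1 ih2
  | smul a _ ih => exact Submodule.smul_mem _ a ih
  | mul i _ hdeg hc ih =>
    rename_i g c _
    unfold PI at ih ⊢
    rw [Submodule.mem_sInf] at ih ⊢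
    intro J hJ
    have h1 : g ∈ RM (ZMod p) n (d - 1) := by
      have h2 := DegLE_RM hdeg
      exact RM_mono (by omega) h2
    have h3 := hJ.2 g (ih J hJ) h1 i
    have h4 : mono (ZMod p) {i} * g = fun x => (if x i = true then (1 : ZMod p) else 0) * g x := by
      funext x
      rw [Pi.mul_apply, ← prod_eq_mono, Finset.prod_singleton]
    rw [← h4]
    exact h3

/-- Expansion implies that `1` is not derived. -/
theorem exp_notDerives {p n m k B d : ℕ} (hp : p.Prime) (Φ : Fin m → KClause n k)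
    (hS : H33RP.Exp (H33RP.SS Φ) B) (hB : 1 ≤ B) (hd : 16 * d ≤ B) (hk : 16 * k ≤ B) (hk1 : 1 ≤ k) :
    ¬ Derives (p := p) (fun j => (Φ j).toClause) d 1 := by
  have : Fact p.Prime := ⟨hp⟩
  intro h
  have h1 := derives_PI Φ (Derives_mono (le_max_left d k) h)
  refine H33RG.one_notMem (F := ZMod p) (fun j => Finset.univ.image (Φ j).1) (fun j => fv (Φ j)) (E := max d k) (B := B)
    (p := 1) (q := 8) le_rfl hB (le_trans hk1 (le_max_right d k)) ?_ ?_ ?_ h1
  · rcases le_total d k with h2 | h2
    · rw [max_eq_right h2]; omega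
    · rw [max_eq_left h2]; omega
  · intro j
    refine le_trans Finset.card_image_le ?_
    rw [Finset.card_univ, Fintype.card_fin]
    exact le_max_right d k
  · intro J hJ
    rw [one_mul]
    exact hS J hJ

/-- For almost all `k`-CNFs with at most `Δ n` clauses, `1` is not derived in degree `n / C`, over every prime field. -/
theorem rand_derives (k Δ : ℕ) (hk : 3 ≤ k) (hΔ : 1 ≤ Δ) : ∃ C : ℕ, 0 < C ∧ ∀ n m : ℕ, m ≤ Δ * n →
    n * (Finset.univ.filter (fun Φ : Fin m → KClause n k => ¬ ∀ p : ℕ, p.Prime → ∀ d : ℕ, C * d ≤ n →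
      ¬ Derives (p := p) (fun j => (Φ j).toClause) d 1)).card ≤ C * Fintype.card (KClause n k) ^ m := by
  set Q : ℕ := 32 * k * ((96 * k) ^ 2 * Δ) ^ 4 with hQ
  set R : ℕ := 12 * k * ((96 * k) ^ 2 * Δ) ^ 2 with hR
  have hQ1 : 1 ≤ Q := Nat.succ_le_of_lt (by positivity)
  refine ⟨2 * k ^ 2 + R + 16 * Q * (k + 1), by positivity, fun n m hm => ?_⟩
  set C : ℕ := 2 * k ^ 2 + R + 16 * Q * (k + 1) with hC
  by_cases hn : n < C
  · refine Nat.mul_le_mul hn.le ?_
    refine (Finset.card_le_univ _).trans ?_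
    rw [Fintype.card_fun, Fintype.card_fin]
  · have hn' : C ≤ n := by omega
    have hn2 : 2 * k ^ 2 ≤ n := by omega
    have hB : Q * (n / Q) ≤ n := Nat.mul_div_le n Q
    have h2 := H33RP.exp_count (n := n) (k := k) (m := m) (Δ := Δ) (B := n / Q) hk hΔ hn2 hm hB
    have h16 : 16 * Q * (k + 1) ≤ n := by omega
    have hBk : 16 * (k + 1) ≤ n / Q := by
      rw [Nat.le_div_iff_mul_le hQ1]
      calc 16 * (k + 1) * Q = 16 * Q * (k + 1) := by ring
        _ ≤ n := h16
    have h3 : (Finset.univ.filter (fun Φ : Fin m → KClause n k => ¬ ∀ p : ℕ, p.Prime → ∀ d : ℕ, C * d ≤ n →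
        ¬ Derives (p := p) (fun j => (Φ j).toClause) d 1)).card ≤
        (Finset.univ.filter (fun Φ : Fin m → LovaszSchrijver.KClause n k =>
          ¬ H33RP.Exp (H33RP.SS Φ) (n / Q))).card := by
      refine Finset.card_le_card ?_
      intro Φ hΦ
      rw [Finset.mem_filter] at hΦ ⊢
      refine ⟨Finset.mem_univ _, fun hexp => hΦ.2 ?_⟩
      intro p hp d hd
      refine exp_notDerives hp Φ hexp (by omega) ?_ (by omega) (by omega)
      rw [Nat.le_div_iff_mul_le hQ1]
      have h4 : 16 * Q ≤ C := by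
        rw [hC]
        nlinarith
      calc 16 * d * Q = 16 * Q * d := by ring
        _ ≤ C * d := Nat.mul_le_mul_right d h4
        _ ≤ n := hd
    calc n * _ ≤ n * _ := Nat.mul_le_mul_left n h3
      _ ≤ R * Fintype.card (LovaszSchrijver.KClause n k) ^ m := h2
      _ ≤ C * Fintype.card (KClause n k) ^ m := Nat.mul_le_mul_right _ (by omega)

end H69SD
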